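import Pool.Agent.BEJ.Stmts

/-!
# Squad BEJ, row WAS: the behaviour at infinity
-/

namespace Pool.Agent.BEJ.H34

open Set Filter Topology MeasureTheory Pool.Agent.BEJ

noncomputable section

namespace WAS

/-- the Gaussian weight -/
def gm (x : ℝ) (k : ℕ) (t : ℝ) : ℝ := t ^ (2 * k) * Real.exp (-x * t ^ 2)

theorem gm_nonneg (x : ℝ) (k : ℕ) (t : ℝ) : 0 ≤ gm x k t := by
  unfold gm
  rw [pow_mul]
  positivity

theorem gm_eq (x : ℝ) (k : ℕ) :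
    gm x k = fun t : ℝ => t ^ (((2 * k : ℕ) : ℝ)) * Real.exp (-x * t ^ 2) := by
  funext t
  unfold gm
  rw [Real.rpow_natCast]

theorem gm_int (x : ℝ) (hx : 0 < x) (k : ℕ) : IntegrableOn (gm x k) (Ioi 0) := by
  rw [gm_eq]
  refine integrableOn_rpow_mul_exp_neg_mul_sq hx ?_
  have : (0 : ℝ) ≤ ((2 * k : ℕ) : ℝ) := Nat.cast_nonneg _
  linarith

theorem gm_val (x : ℝ) (hx : 0 < x) (k : ℕ) :
    2 * Real.sqrt (x / Real.pi) * ∫ t in Ioi (0 : ℝ), gm x k t =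
      Real.Gamma (k + 1 / 2) / Real.sqrt Real.pi / x ^ k := by
  have h := integral_rpow_mul_exp_neg_mul_rpow (p := 2) (q := ((2 * k : ℕ) : ℝ)) (b := x)
    (by norm_num) (by have : (0 : ℝ) ≤ ((2 * k : ℕ) : ℝ) := Nat.cast_nonneg _
                      linarith) hx
  have e : (fun t : ℝ => t ^ (((2 * k : ℕ) : ℝ)) * Real.exp (-x * t ^ (2 : ℝ))) = gm x k := by
    rw [gm_eq]
    funext t
    rw [Real.rpow_two]
  rw [e] at h
  rw [h]
  have e2 : -(((2 * k : ℕ) : ℝ) + 1) / 2 = -((k : ℝ) + 1 / 2) := by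
    push_cast
    ring
  have e3 : (((2 * k : ℕ) : ℝ) + 1) / 2 = (k : ℝ) + 1 / 2 := by
    push_cast
    ring
  rw [e2, e3, Real.rpow_neg hx.le, Real.rpow_add hx, Real.rpow_natCast, ← Real.sqrt_eq_rpow,
    Real.sqrt_div hx.le]
  have h1 : Real.sqrt x ≠ 0 := (Real.sqrt_pos.2 hx).ne'
  have h2 : Real.sqrt Real.pi ≠ 0 := (Real.sqrt_pos.2 Real.pi_pos).ne'
  have h3 : x ^ k ≠ 0 := (pow_pos hx k).ne'
  field_simp

theorem G0 : Real.Gamma ((0 : ℕ) + 1 / 2) = Real.sqrt Real.pi := by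
  rw [Nat.cast_zero, zero_add, Real.Gamma_one_half_eq]

theorem Gs (k : ℕ) : Real.Gamma ((k + 1 : ℕ) + 1 / 2) = (k + 1 / 2) * Real.Gamma (k + 1 / 2) := by
  have h : ((k : ℝ) + 1 / 2) ≠ 0 := by positivity
  rw [← Real.Gamma_add_one h]
  congr 1
  push_cast
  ring

theorem v0 (x : ℝ) (hx : 0 < x) :
    2 * Real.sqrt (x / Real.pi) * ∫ t in Ioi (0 : ℝ), gm x 0 t = 1 := by
  have h2 : Real.sqrt Real.pi ≠ 0 := (Real.sqrt_pos.2 Real.pi_pos).ne'
  rw [gm_val x hx 0, G0, pow_zero, div_self h2, div_one]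

theorem v1 (x : ℝ) (hx : 0 < x) :
    2 * Real.sqrt (x / Real.pi) * ∫ t in Ioi (0 : ℝ), gm x 1 t = 1 / (2 * x) := by
  have h2 : Real.sqrt Real.pi ≠ 0 := (Real.sqrt_pos.2 Real.pi_pos).ne'
  have e := Gs 0
  rw [zero_add, G0] at e
  rw [gm_val x hx 1, e]
  push_cast
  field_simp
  ring

theorem v2 (x : ℝ) (hx : 0 < x) :
    2 * Real.sqrt (x / Real.pi) * ∫ t in Ioi (0 : ℝ), gm x 2 t = 3 / (4 * x ^ 2) := by
  have h2 : Real.sqrt Real.pi ≠ 0 := (Real.sqrt_pos.2 Real.pi_pos).ne'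
  have e := Gs 0
  rw [zero_add, G0] at e
  have e' := Gs 1
  rw [e] at e'
  rw [gm_val x hx 2, show ((2 : ℕ) : ℝ) = ((1 + 1 : ℕ) : ℝ) by norm_num, e']
  push_cast
  field_simp
  ring

theorem v3 (x : ℝ) (hx : 0 < x) :
    2 * Real.sqrt (x / Real.pi) * ∫ t in Ioi (0 : ℝ), gm x 3 t = 15 / (8 * x ^ 3) := by
  have h2 : Real.sqrt Real.pi ≠ 0 := (Real.sqrt_pos.2 Real.pi_pos).ne'
  have e := Gs 0
  rw [zero_add, G0] at e
  have e' := Gs 1
  rw [e] at e'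
  have e'' := Gs 2
  rw [show ((2 : ℕ) : ℝ) = ((1 + 1 : ℕ) : ℝ) by norm_num, e'] at e''
  rw [gm_val x hx 3, show ((3 : ℕ) : ℝ) = ((2 + 1 : ℕ) : ℝ) by norm_num, e'']
  push_cast
  field_simp
  ring

end WAS

open WAS in
theorem was (eeb : EebStmt) : WasStmt := by
  obtain ⟨h1, -, h3, -, C0, h5⟩ := eeb
  have hC0 : 0 ≤ C0 := by
    have := (norm_nonneg _).trans (h5 1)
    simpa using this
  refine ⟨C0 * (15 / 8), ?_⟩
  intro x hx
  have hx0 : 0 < x := by linarith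
  set c : ℂ := Complex.exp (Real.pi / 4 * Complex.I) with hc
  have hcc : Complex.exp (-(Real.pi / 4 * Complex.I)) * c = 1 := by
    rw [hc, ← Complex.exp_add, neg_add_cancel, Complex.exp_zero]
  set G : ℝ → ℂ := fun t => c * (1 - Complex.I * (t : ℂ) ^ 2 / 4 - 3 * (t : ℂ) ^ 4 / 32) with hG
  set S : ℝ := 2 * Real.sqrt (x / Real.pi) with hS
  have hS0 : 0 ≤ S := by positivity
  have hi := gm_int x hx0
  -- the main integral
  have hQ : QQ 0 x = ∫ t in Ioi (0 : ℝ), ((gm x 0 t : ℝ) : ℂ) * EE t := rfl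
  have hfi : IntegrableOn (fun t : ℝ => ((gm x 0 t : ℝ) : ℂ) * EE t) (Ioi 0) := by
    refine (hi 0).ofReal.mul_bdd (c := 1) h3.aestronglyMeasurable ?_
    exact Eventually.of_forall h1
  have hk : ∀ k, IntegrableOn (fun t : ℝ => ((gm x k t : ℝ) : ℂ)) (Ioi 0) := fun k =>
    (hi k).ofReal
  have hGe : ∀ t, ((gm x 0 t : ℝ) : ℂ) * G t = c * ((gm x 0 t : ℝ) : ℂ) -
      c * (Complex.I / 4) * ((gm x 1 t : ℝ) : ℂ) - c * (3 / 32) * ((gm x 2 t : ℝ) : ℂ) := by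
    intro t
    simp only [hG, gm]
    push_cast
    ring
  have hgi : IntegrableOn (fun t : ℝ => ((gm x 0 t : ℝ) : ℂ) * G t) (Ioi 0) := by
    have h := (((hk 0).const_mul c).sub ((hk 1).const_mul (c * (Complex.I / 4)))).sub
      ((hk 2).const_mul (c * (3 / 32)))
    exact h.congr (Eventually.of_forall fun t => (hGe t).symm)
  have hGv : ∫ t in Ioi (0 : ℝ), ((gm x 0 t : ℝ) : ℂ) * G t =
      c * ((∫ t in Ioi (0 : ℝ), gm x 0 t : ℝ) : ℂ) -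
      c * (Complex.I / 4) * ((∫ t in Ioi (0 : ℝ), gm x 1 t : ℝ) : ℂ) -
      c * (3 / 32) * ((∫ t in Ioi (0 : ℝ), gm x 2 t : ℝ) : ℂ) := by
    rw [show (fun t : ℝ => ((gm x 0 t : ℝ) : ℂ) * G t) = fun t => c * ((gm x 0 t : ℝ) : ℂ) -
      c * (Complex.I / 4) * ((gm x 1 t : ℝ) : ℂ) - c * (3 / 32) * ((gm x 2 t : ℝ) : ℂ) from
      funext hGe]
    have hs : Integrable (fun t : ℝ => c * ((gm x 0 t : ℝ) : ℂ) -
        c * (Complex.I / 4) * ((gm x 1 t : ℝ) : ℂ)) (volume.restrict (Ioi 0)) :=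
      ((hk 0).const_mul c).sub ((hk 1).const_mul (c * (Complex.I / 4)))
    rw [integral_sub hs ((hk 2).const_mul (c * (3 / 32))), integral_sub ((hk 0).const_mul c)
      ((hk 1).const_mul (c * (Complex.I / 4))), integral_const_mul, integral_const_mul,
      integral_const_mul, integral_complex_ofReal, integral_complex_ofReal,
      integral_complex_ofReal]
  have hmain : ((S : ℝ) : ℂ) * Complex.exp (-(Real.pi / 4 * Complex.I)) *
      ∫ t in Ioi (0 : ℝ), ((gm x 0 t : ℝ) : ℂ) * G t =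
      1 - Complex.I / (8 * x) - 9 / (128 * (x : ℂ) ^ 2) := by
    rw [hGv]
    have a0 : (S : ℂ) * ((∫ t in Ioi (0 : ℝ), gm x 0 t : ℝ) : ℂ) = 1 := by
      rw [← Complex.ofReal_mul, v0 x hx0, Complex.ofReal_one]
    have a1 : (S : ℂ) * ((∫ t in Ioi (0 : ℝ), gm x 1 t : ℝ) : ℂ) = 1 / (2 * x) := by
      rw [← Complex.ofReal_mul, v1 x hx0]
      push_cast
      rfl
    have a2 : (S : ℂ) * ((∫ t in Ioi (0 : ℝ), gm x 2 t : ℝ) : ℂ) = 3 / (4 * (x : ℂ) ^ 2) := by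
      rw [← Complex.ofReal_mul, v2 x hx0]
      push_cast
      rfl
    set J0 : ℂ := ((∫ t in Ioi (0 : ℝ), gm x 0 t : ℝ) : ℂ)
    set J1 : ℂ := ((∫ t in Ioi (0 : ℝ), gm x 1 t : ℝ) : ℂ)
    set J2 : ℂ := ((∫ t in Ioi (0 : ℝ), gm x 2 t : ℝ) : ℂ)
    have hxc : (x : ℂ) ≠ 0 := Complex.ofReal_ne_zero.2 hx0.ne'
    calc (S : ℂ) * Complex.exp (-(Real.pi / 4 * Complex.I)) *
          (c * J0 - c * (Complex.I / 4) * J1 - c * (3 / 32) * J2)
        = (Complex.exp (-(Real.pi / 4 * Complex.I)) * c) *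
          ((S : ℂ) * J0 - (Complex.I / 4) * ((S : ℂ) * J1) - (3 / 32) * ((S : ℂ) * J2)) := by ring
      _ = 1 - (Complex.I / 4) * (1 / (2 * x)) - (3 / 32) * (3 / (4 * (x : ℂ) ^ 2)) := by
          rw [hcc, a0, a1, a2, one_mul]
      _ = _ := by
          field_simp
          ring
  have hdiff : ((S : ℝ) : ℂ) * Complex.exp (-(Real.pi / 4 * Complex.I)) * QQ 0 x -
      (1 - Complex.I / (8 * x) - 9 / (128 * (x : ℂ) ^ 2)) =
      ((S : ℝ) : ℂ) * Complex.exp (-(Real.pi / 4 * Complex.I)) *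
        ∫ t in Ioi (0 : ℝ), ((gm x 0 t : ℝ) : ℂ) * (EE t - G t) := by
    rw [← hmain, hQ, ← mul_sub, ← integral_sub hfi hgi]
    congr 2
    funext t
    ring
  show ‖((S : ℝ) : ℂ) * Complex.exp (-(Real.pi / 4 * Complex.I)) * QQ 0 x -
    (1 - Complex.I / (8 * x) - 9 / (128 * (x : ℂ) ^ 2))‖ ≤ C0 * (15 / 8) / x ^ 3
  rw [hdiff, norm_mul, norm_mul]
  have n1 : ‖Complex.exp (-(Real.pi / 4 * Complex.I))‖ = 1 := by
    rw [show -((Real.pi : ℂ) / 4 * Complex.I) = ((-(Real.pi / 4) : ℝ) : ℂ) * Complex.I by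
      push_cast; ring]
    exact Complex.norm_exp_ofReal_mul_I _
  rw [n1, mul_one, Complex.norm_real, Real.norm_eq_abs, abs_of_nonneg hS0]
  have hbd : ‖∫ t in Ioi (0 : ℝ), ((gm x 0 t : ℝ) : ℂ) * (EE t - G t)‖ ≤
      ∫ t in Ioi (0 : ℝ), C0 * gm x 3 t := by
    refine norm_integral_le_of_norm_le ((hi 3).const_mul C0) ?_
    refine Eventually.of_forall fun t => ?_
    rw [norm_mul, Complex.norm_real, Real.norm_eq_abs, abs_of_nonneg (gm_nonneg x 0 t)]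
    calc gm x 0 t * ‖EE t - G t‖ ≤ gm x 0 t * (C0 * t ^ 6) :=
          mul_le_mul_of_nonneg_left (h5 t) (gm_nonneg x 0 t)
      _ = C0 * gm x 3 t := by
          unfold gm
          ring
  calc S * ‖∫ t in Ioi (0 : ℝ), ((gm x 0 t : ℝ) : ℂ) * (EE t - G t)‖
      ≤ S * ∫ t in Ioi (0 : ℝ), C0 * gm x 3 t := mul_le_mul_of_nonneg_left hbd hS0
    _ = C0 * (S * ∫ t in Ioi (0 : ℝ), gm x 3 t) := by
        rw [integral_const_mul]
        ring
    _ = C0 * (15 / 8) / x ^ 3 := by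
        rw [v3 x hx0]
        field_simp

end

end Pool.Agent.BEJ.H34
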